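import Mathlib

namespace Pool.Agent.Results.MP_6ee6b4_an.GeneratorsNotDense

open Set Filter Topology

section Defs
variable {K X : Type*} [RCLike K] [AddCommGroup X] [Module K X] [TopologicalSpace X]

/-- `X` with the bilinear product `mul` is an `F`-algebra: a completely metrizable topological
vector space with an associative and (jointly) continuous bilinear product. -/
def IsFAlgebra (mul : X →ₗ[K] X →ₗ[K] X) : Prop :=
  IsTopologicalAddGroup X ∧ ContinuousSMul K X ∧
    TopologicalSpace.IsCompletelyMetrizableSpace X ∧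
    (∀ x y z, mul (mul x y) z = mul x (mul y z)) ∧ Continuous fun p : X × X => mul p.1 p.2

/-- `y` is hypercyclic for `T`. -/
def Hypercyclic (T : X →L[K] X) (y : X) : Prop := Dense (range fun n : ℕ => (T ^ n) y)

/-- `pw mul x n` is the power `x ^ (n + 1)`. -/
def pw (mul : X →ₗ[K] X →ₗ[K] X) (x : X) : ℕ → X
  | 0 => x
  | n + 1 => mul (pw mul x n) x

/-- `A(x)`: all finite sums `∑_{n ≥ 1} aₙ xⁿ`. -/
def subalg (mul : X →ₗ[K] X →ₗ[K] X) (x : X) : Submodule K X :=
  Submodule.span K (range (pw mul x))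

/-- `G(T)`: the vectors that generate a hypercyclic algebra for `T`. -/
def generators (mul : X →ₗ[K] X →ₗ[K] X) (T : X →L[K] X) : Set X :=
  {x | x ≠ 0 ∧ ∀ y ∈ subalg mul x, y ≠ 0 → Hypercyclic T y}

end Defs

variable (K : Type) [RCLike K]

/-- The product of the unital algebra `K ⊕ K^ℕ` with square-zero second summand:
`(x y)₀ = x₀ y₀` and `(x y)ₖ = x₀ yₖ + y₀ xₖ` for `k ≥ 1`. -/
noncomputable def mul0 : (ℕ → K) →ₗ[K] (ℕ → K) →ₗ[K] (ℕ → K) :=
  LinearMap.mk₂ K (fun x y => fun k => if k = 0 then x 0 * y 0 else x 0 * y k + y 0 * x k)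
    (by intro x y z; funext k; by_cases h : k = 0 <;> simp [h] <;> ring)
    (by intro c x y; funext k; by_cases h : k = 0 <;> simp [h] <;> ring)
    (by intro x y z; funext k; by_cases h : k = 0 <;> simp [h] <;> ring)
    (by intro c x y; funext k; by_cases h : k = 0 <;> simp [h] <;> ring)

theorem mul0_apply (x y : ℕ → K) (k : ℕ) :
    mul0 K x y k = if k = 0 then x 0 * y 0 else x 0 * y k + y 0 * x k := rfl

/-- The backward shift. -/
noncomputable def shift : (ℕ → K) →L[K] (ℕ → K) :=
  ContinuousLinearMap.pi fun n => ContinuousLinearMap.proj (n + 1)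

theorem shift_pow (n : ℕ) (x : ℕ → K) (i : ℕ) : (shift K ^ n) x i = x (n + i) := by
  induction n generalizing x i with
  | zero => simp
  | succ n ih =>
    rw [pow_succ, mul_apply_eq_comp, ih]
    have : n + 1 + i = n + i + 1 := by omega
    rw [this]
    rfl

theorem exists_hc : ∃ x : ℕ → K, x 0 = 0 ∧ Hypercyclic (shift K) x := by
  classical
  obtain ⟨d, hd⟩ := TopologicalSpace.exists_dense_seq (ℕ → K)
  let x : ℕ → K := fun k => if k = 0 then 0 else d (Nat.unpair (Nat.sqrt k)).1 (k - Nat.sqrt k ^ 2)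
  refine ⟨x, by simp [x], ?_⟩
  have key : ∀ j N i, i ≤ N → 1 ≤ N →
      (shift K ^ (Nat.pair j N ^ 2)) x i = d j i := by
    intro j N i hi hN
    have h1 : N ≤ Nat.pair j N := Nat.right_le_pair _ _
    rw [shift_pow]
    have hs : Nat.sqrt (Nat.pair j N ^ 2 + i) = Nat.pair j N := by
      rw [pow_two]
      exact Nat.sqrt_add_eq _ (by omega)
    have h0 : Nat.pair j N ^ 2 + i ≠ 0 := by
      have : 0 < Nat.pair j N ^ 2 := pow_pos (by omega) 2
      omega
    simp only [x, h0, if_false, hs, Nat.unpair_pair, Nat.add_sub_cancel_left]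
  have hcl : ∀ j, d j ∈ closure (range fun n : ℕ => (shift K ^ n) x) := by
    intro j
    refine mem_closure_of_tendsto (f := fun N => (shift K ^ (Nat.pair j N ^ 2)) x) (b := atTop) ?_
      (Eventually.of_forall fun N => ⟨_, rfl⟩)
    rw [tendsto_pi_nhds]
    intro i
    refine tendsto_const_nhds.congr' ?_
    filter_upwards [eventually_ge_atTop i, eventually_ge_atTop 1] with N h1 h2
    exact (key j N i h1 h2).symm
  refine dense_closure.1 (hd.mono ?_)
  rintro _ ⟨j, rfl⟩
  exact hcl j

theorem hc_smul {x : ℕ → K} (hx : Hypercyclic (shift K) x) {c : K} (hc : c ≠ 0) :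
    Hypercyclic (shift K) (c • x) := by
  have h := (Homeomorph.smulOfNeZero (α := ℕ → K) c hc).surjective.denseRange.dense_image
    (Homeomorph.smulOfNeZero (α := ℕ → K) c hc).continuous hx
  refine h.mono ?_
  rintro _ ⟨_, ⟨n, rfl⟩, rfl⟩
  exact ⟨n, by simp⟩

theorem gen_sub : generators (mul0 K) (shift K) ⊆ {x | x 0 = 0} := by
  intro x hx
  by_contra h0
  have h0' : x 0 ≠ 0 := h0
  have hmem : (2 * x 0) • x - mul0 K x x ∈ subalg (mul0 K) x :=
    Submodule.sub_mem _ (Submodule.smul_mem _ _ (Submodule.subset_span ⟨0, rfl⟩))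
      (Submodule.subset_span ⟨1, rfl⟩)
  have hne : (2 * x 0) • x - mul0 K x x ≠ 0 := by
    intro h
    have := congrFun h 0
    simp only [Pi.sub_apply, Pi.smul_apply, smul_eq_mul, mul0_apply, if_true, Pi.zero_apply] at this
    have h2 : x 0 * x 0 = 0 := by linear_combination this
    exact h0' (mul_self_eq_zero.1 h2)
  have hd := hx.2 _ hmem hne
  have hsub : (range fun n : ℕ => (shift K ^ n) ((2 * x 0) • x - mul0 K x x)) ⊆ {y | y 2 = 0} := by
    rintro _ ⟨n, rfl⟩
    have : n + 2 ≠ 0 := by omega
    change (shift K ^ n) ((2 * x 0) • x - mul0 K x x) 2 = 0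
    rw [shift_pow]
    simp only [Pi.sub_apply, Pi.smul_apply, smul_eq_mul, mul0_apply, this, if_false]
    ring
  have hcl : IsClosed {y : ℕ → K | y 2 = 0} := isClosed_eq (continuous_apply 2) continuous_const
  have h1 := (hd.mono hsub).closure_eq
  rw [hcl.closure_eq] at h1
  have : (fun _ => (1 : K)) ∈ {y : ℕ → K | y 2 = 0} := h1 ▸ mem_univ _
  simp at this

theorem not_dense : ¬ Dense (generators (mul0 K) (shift K)) := by
  intro hd
  have hcl : IsClosed {y : ℕ → K | y 0 = 0} := isClosed_eq (continuous_apply 0) continuous_const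
  have h1 := (hd.mono (gen_sub K)).closure_eq
  rw [hcl.closure_eq] at h1
  have : (fun _ => (1 : K)) ∈ {y : ℕ → K | y 0 = 0} := h1 ▸ mem_univ _
  simp at this

/-- On `K^ℕ` (`K = ℝ` or `ℂ`, product topology) there are a commutative unital `F`-algebra product and a continuous
linear map `T` for which `G(T)` is non-empty but neither dense nor residual. -/
theorem result (K : Type) [RCLike K] :
    ∃ (mul : (ℕ → K) →ₗ[K] (ℕ → K) →ₗ[K] (ℕ → K)) (T : (ℕ → K) →L[K] (ℕ → K)),
      IsFAlgebra mul ∧ (∀ x y, mul x y = mul y x) ∧ (∃ e, ∀ x, mul e x = x) ∧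
        (generators mul T).Nonempty ∧
        ¬ Dense (generators mul T) ∧ generators mul T ∉ residual (ℕ → K) := by
  refine ⟨mul0 K, shift K, ⟨inferInstance, inferInstance, inferInstance, ?_, ?_⟩, ?_, ?_, ?_,
    not_dense K, fun h => not_dense K (dense_of_mem_residual h)⟩
  · intro x y z
    funext k
    by_cases h : k = 0 <;> simp [mul0_apply, h] <;> ring
  · refine continuous_pi fun k => ?_
    simp only [mul0_apply]
    split_ifs <;> fun_prop
  · intro x y
    funext k
    by_cases h : k = 0 <;> simp [mul0_apply, h] <;> ring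
  · refine ⟨Pi.single 0 1, fun x => ?_⟩
    funext k
    by_cases h : k = 0 <;> simp [mul0_apply, h]
  · obtain ⟨x, hx0, hx⟩ := exists_hc K
    have hxne : x ≠ 0 := by
      rintro rfl
      have hsub : (range fun n : ℕ => (shift K ^ n) (0 : ℕ → K)) ⊆ {y | y 0 = 0} := by
        rintro _ ⟨n, rfl⟩
        simp
      have hcl : IsClosed {y : ℕ → K | y 0 = 0} :=
        isClosed_eq (continuous_apply 0) continuous_const
      have h1 := (hx.mono hsub).closure_eq
      rw [hcl.closure_eq] at h1
      have : (fun _ => (1 : K)) ∈ {y : ℕ → K | y 0 = 0} := h1 ▸ mem_univ _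
      simp at this
    refine ⟨x, hxne, fun y hy hy0 => ?_⟩
    have hle : subalg (mul0 K) x ≤ Submodule.span K {x} := by
      refine Submodule.span_le.2 ?_
      rintro _ ⟨n, rfl⟩
      cases n with
      | zero => exact Submodule.subset_span rfl
      | succ n =>
        have h0 : ∀ n, pw (mul0 K) x n 0 = 0 := by
          intro n
          cases n with
          | zero => exact hx0
          | succ n => simp [pw, mul0_apply, hx0]
        have : pw (mul0 K) x (n + 1) = 0 := by
          funext k
          simp [pw, mul0_apply, hx0, h0]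
        rw [this]
        exact Submodule.zero_mem _
    obtain ⟨c, rfl⟩ := Submodule.mem_span_singleton.1 (hle hy)
    refine hc_smul K hx ?_
    rintro rfl
    simp at hy0

end Pool.Agent.Results.MP_6ee6b4_an.GeneratorsNotDense
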